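import Pool.Agent.Results.MP_b9a716_gt.MooreLSpace

/-!
# A hereditarily Grothendieck L space (in ZFC)

Moore's L space is hereditarily Grothendieck and hereditarily Lindelöf, has size `ℵ₁`, and its
countable subsets have countable closures, so that no uncountable subspace is separable.
-/

set_option autoImplicit false
set_option linter.all false

namespace Pool.Agent.Results.MP_b9a716_gt.HereditarilyLindelof

open Filter Topology Set Cardinal
open Pool.Agent.Results.MP_b9a716_gt.MooreLSpace

/-- The index set `ω₁`. -/
theorem exists_W' : ∃ (W : Type) (_ : LinearOrder W) (_ : OrderBot W) (_ : WellFoundedLT W),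
    Om W ∧ #W = ℵ₁ := by
  let W := (ℵ₁ : Cardinal.{0}).ord.ToType
  have hW : #W = ℵ₁ := mk_ord_toType _
  have hne : Nonempty W := by
    rw [← mk_ne_zero_iff, hW]
    exact (aleph_pos 1).ne'
  let hbot : OrderBot W := WellFoundedLT.toOrderBot W
  have hcI : ∀ b : W, (Set.Iio b).Countable := fun b =>
    (countable_iff_lt_aleph_one _).2 (mk_Iio_toType_ord_lt b)
  refine ⟨W, inferInstance, hbot, inferInstance, ⟨hcI, ?_⟩, hW⟩
  intro S hS
  by_contra hcon
  push Not at hcon
  have h1 : (Set.univ : Set W).Countable := by
    refine (hS.biUnion (t := fun x _ => Set.Iic x) fun x _ => ?_).mono ?_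
    · rw [← Set.Iio_insert]
      exact (hcI x).insert x
    · intro b _
      obtain ⟨x, hx, hbx⟩ := hcon b
      exact Set.mem_iUnion₂.2 ⟨x, hx, hbx⟩
  have h2 := (countable_iff_lt_aleph_one _).1 h1
  rw [mk_univ, hW] at h2
  exact lt_irrefl _ h2

section space

variable {W : Type} [LinearOrder W] [OrderBot W] [WellFoundedLT W] [Om W]
variable {z : W → UnitAddCircle} {Y : Type} [TopologicalSpace Y] {ι : Y → W}

/-- The space is hereditarily Lindelöf. -/
theorem herLindelof (hz : Kr z) (hinj : Function.Injective ι)
    (hι : IsInducing fun y => w z (ι y)) : HereditarilyLindelofSpace Y := by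
  classical
  refine ⟨fun t _ => ?_⟩
  apply isLindelof_of_countable_subcover
  intro κ U hU ht
  have h1 : ∀ y : Y, ∃ (i : Option κ) (s : Finset W) (n : ℕ), y ∈ t → ∃ j, i = some j ∧
      ∀ y', (∀ ξ ∈ s, ‖w z (ι y') ξ - w z (ι y) ξ‖ < 1 / ((n : ℝ) + 1)) → y' ∈ U j := by
    intro y
    by_cases hy : y ∈ t
    · obtain ⟨j, hj⟩ := Set.mem_iUnion.1 (ht hy)
      obtain ⟨s, n, h⟩ := nbhd hι (hU j) hj
      exact ⟨some j, s, n, fun _ => ⟨j, rfl, h⟩⟩
    · exact ⟨none, ∅, 0, fun h => absurd h hy⟩
  choose i s n h using h1
  obtain ⟨Q₀, hQ, hQc, hcov⟩ := hl hz hinj t s n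
  refine ⟨{j | ∃ y ∈ Q₀, i y = some j}, ?_, ?_⟩
  · refine (hQc.biUnion (t := fun y _ => {j | i y = some j}) fun y _ => ?_).mono ?_
    · refine Set.Subsingleton.countable ?_
      intro a ha b hb
      exact Option.some_injective _ (ha.symm.trans hb)
    · rintro j ⟨y, hy, hj⟩
      exact Set.mem_iUnion₂.2 ⟨y, hy, hj⟩
  · intro y hy
    obtain ⟨y', hy', hyy⟩ := hcov y hy
    obtain ⟨j, hj, hj2⟩ := h y' (hQ hy')
    exact Set.mem_iUnion₂.2 ⟨j, ⟨y', hy', hj⟩, hj2 y hyy⟩

end space

/-- **In ZFC there is a hereditarily Grothendieck L space.** There is a Tychonoff space `X` of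
cardinality `ℵ₁` all of whose subspaces are Lindelöf and Grothendieck and in which the closure of
each countable set is countable; in particular every separable subspace of `X` is countable, `X`
itself is not separable, and `X` is not hereditarily separable. -/
theorem result : ∃ (X : Type) (_ : TopologicalSpace X), T35Space X ∧ #X = ℵ₁ ∧
    HereditarilyGrothendieck X ∧ HereditarilyLindelofSpace X ∧
    (∀ D : Set X, D.Countable → (closure D).Countable) ∧
    (∀ S : Set X, TopologicalSpace.SeparableSpace S → S.Countable) ∧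
    ¬ TopologicalSpace.SeparableSpace X ∧ ¬ HereditarilySeparable X := by
  obtain ⟨W, i1, i2, i3, i4, hW⟩ := exists_W'
  obtain ⟨z, hz1, hz2⟩ := kron W (hW.le.trans aleph_one_le_continuum)
  have hz : Kr z := ⟨hz1, hz2⟩
  have h1 : ∀ y : Set.range (w z), ∃ β, w z β = y.1 := fun y => y.2
  choose ι hι using h1
  have hinj : Function.Injective ι := by
    intro y y' h
    apply Subtype.ext
    rw [← hι y, h, hι y']
  have hind : IsInducing fun y => w z (ι y) := by
    have : (fun y => w z (ι y)) = fun y : Set.range (w z) => y.1 := funext hι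
    rw [this]
    exact IsInducing.subtypeVal
  have hcard : #(Set.range (w z)) = ℵ₁ := by
    rw [mk_range_eq _ (w_injective hz), hW]
  have hclos : ∀ D : Set (Set.range (w z)), D.Countable → (closure D).Countable := by
    intro D hD
    obtain ⟨δ, hδ⟩ := Om.bdd (ι '' D) (hD.image _)
    have hsub : closure D ⊆ {x : Set.range (w z) | x.1 δ = 0} := by
      apply closure_minimal
      · intro d hd
        show d.1 δ = 0
        rw [← hι d, w_eq_zero hz]
        exact (hδ _ ⟨d, hd, rfl⟩).le
      · have : Continuous fun x : Set.range (w z) => x.1 δ :=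
          (continuous_apply δ).comp continuous_subtype_val
        exact isClosed_singleton.preimage this
    refine Set.Countable.mono hsub ?_
    have h2 : {x : Set.range (w z) | x.1 δ = 0} ⊆ ι ⁻¹' (Set.Iic δ) := by
      intro x hx
      have h3 : x.1 δ = 0 := hx
      rw [← hι x, w_eq_zero hz] at h3
      exact h3
    refine Set.Countable.mono h2 ?_
    refine Set.Countable.preimage_of_injOn ?_ hinj.injOn
    rw [← Set.Iio_insert]
    exact (Om.countable_Iio δ).insert δ
  have hsep : ∀ S : Set (Set.range (w z)), TopologicalSpace.SeparableSpace S → S.Countable := by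
    intro S hS
    obtain ⟨D, hDc, hDd⟩ := TopologicalSpace.exists_countable_dense S
    have h2 := hclos (Subtype.val '' D) (hDc.image _)
    refine h2.mono ?_
    intro x hx
    have h3 : (⟨x, hx⟩ : S) ∈ closure D := hDd _
    exact image_closure_subset_closure_image continuous_subtype_val ⟨_, h3, rfl⟩
  have hnc : ¬ (Set.univ : Set (Set.range (w z))).Countable := by
    intro h
    have h2 := (countable_iff_lt_aleph_one _).1 h
    rw [mk_univ, hcard] at h2
    exact lt_irrefl _ h2
  have hns : ¬ TopologicalSpace.SeparableSpace (Set.univ : Set (Set.range (w z))) :=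
    fun h => hnc (hsep _ h)
  refine ⟨Set.range (w z), inferInstance, inferInstance, hcard, ?_, herLindelof hz hinj hind,
    hclos, hsep, ?_, fun h => hns (h _)⟩
  · intro S
    refine groth hz (ι := fun y : S => ι y.1) (hinj.comp Subtype.val_injective) ?_
    exact hind.comp IsInducing.subtypeVal
  · intro h
    apply hns
    obtain ⟨D, hDc, hDd⟩ := TopologicalSpace.exists_countable_dense (Set.range (w z))
    have h2 : closure D = Set.univ := hDd.closure_eq
    exfalso
    apply hnc
    rw [← h2]
    exact hclos D hDc

end Pool.Agent.Results.MP_b9a716_gt.HereditarilyLindelof
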